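import Pool.Agent.H16.TK.Stmt2

/-! INF: equivalence of rank `om` preserves finiteness; finite flaps are rigid. -/

set_option autoImplicit false

open Set

namespace Pool.Agent.TK

namespace INFaux

variable {C : Type}

lemma partner : ∀ (x y : List ℕ), y.length = x.length → ∀ z ∈ x, ∃ w, (z, w) ∈ x.zip y := by
  intro x
  induction x with
  | nil => intro y _ z hz; simp at hz
  | cons a x ih =>
    intro y hy z hz
    cases y with
    | nil => simp at hy
    | cons b y =>
      rcases List.mem_cons.1 hz with rfl | hz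
      · exact ⟨b, by simp⟩
      · obtain ⟨w, hw⟩ := ih y (by simpa using hy) z hz
        exact ⟨w, by simp only [List.zip_cons_cons, List.mem_cons]; exact Or.inr hw⟩

lemma key {M M' : St C} {D D' : Set ℕ} {p : List (ℕ × ℕ)} (H : bf M M' D D' om p)
    (hD : D.Finite) : ∃ x y : List ℕ, ms x = D ∧ y.length = x.length ∧
      PI M M' (x.zip y ++ p) ∧ (∀ z ∈ y, z ∈ D') ∧
      ∀ d ∈ D', ∃ c ∈ D, PI M M' ((c, d) :: (x.zip y ++ p)) := by
  obtain ⟨x, hx, -, -⟩ := exists_list hD
  obtain ⟨y, hy, hyD, h⟩ := lim_ext_suc (r := Rk.zero) H 1 x (by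
    intro z hz; rw [← hx]; exact hz)
  refine ⟨x, y, hx, hy, bf_PI h, hyD, ?_⟩
  intro d hd
  obtain ⟨-, -, h3⟩ := h 0
  obtain ⟨c, hc, h'⟩ := h3 d hd
  exact ⟨c, hc, h'⟩

lemma fin {M M' : St C} {D D' : Set ℕ} {p : List (ℕ × ℕ)} (H : bf M M' D D' om p)
    (hD : D.Finite) : D'.Finite := by
  obtain ⟨x, y, hx, hy, -, -, h⟩ := key H hD
  refine (ms_finite y).subset ?_
  intro d hd
  obtain ⟨c, hc, hP⟩ := h d hd
  have hcx : c ∈ x := by rw [← hx] at hc; exact hc
  obtain ⟨w, hw⟩ := partner x y hy c hcx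
  have := (hP.1 (c, d) List.mem_cons_self (c, w)
    (List.mem_cons_of_mem _ (List.mem_append_left _ hw))).1 rfl
  have hdw : d = w := this
  rw [hdw]
  exact (List.of_mem_zip hw).2

end INFaux

theorem pf_INF {C : Type} : INF C := by
  classical
  intro M M' a a' D D' H
  constructor
  · constructor
    · intro hD hD'
      have := bf_symm H.2
      rw [swap_zip] at this
      exact hD (INFaux.fin this hD')
    · intro hD hD'
      exact hD (INFaux.fin H.2 hD')
  · intro hD
    obtain ⟨x, y, hx, hy, hPI, hyD, hb⟩ := INFaux.key H.2 hD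
    have hp : ∀ z ∈ D, ∃ w, (z, w) ∈ x.zip y := by
      intro z hz
      exact INFaux.partner x y hy z (by rw [← hx] at hz; exact hz)
    choose! h hh using hp
    refine ⟨h, H.1, ⟨?_, ?_, ?_⟩, ?_⟩
    · intro z hz
      exact hyD _ (List.of_mem_zip (hh z hz)).2
    · intro z hz w hw hzw
      exact (hPI.1 (z, h z) (List.mem_append_left _ (hh z hz)) (w, h w)
        (List.mem_append_left _ (hh w hw))).2 hzw
    · intro d hd
      obtain ⟨c, hc, hP⟩ := hb d hd
      refine ⟨c, hc, ?_⟩
      exact ((hP.1 (c, d) List.mem_cons_self (c, h c)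
        (List.mem_cons_of_mem _ (List.mem_append_left _ (hh c hc)))).1 rfl).symm
    · intro l hl
      refine hPI.mono ?_
      intro z hz
      rcases List.mem_append.1 hz with hz | hz
      · exact List.mem_append_right _ hz
      · obtain ⟨w, hw, rfl⟩ := List.mem_map.1 hz
        exact List.mem_append_left _ (hh w (hl w hw))

end Pool.Agent.TK
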